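import Pool.Agent.X51.Leaf.Path

/-!
Few leaves in spanning trees: longest paths are Hamiltonian.
-/

set_option autoImplicit false

namespace Pool.Agent.X51.Leaf

open Finset Relation

variable {V : Type*} [Fintype V] {G : SimpleGraph V}

/-- degree -/
noncomputable def dg (G : SimpleGraph V) (v : V) : ℕ := (G.neighborSet v).ncard

lemma dg_le [DecidableEq V] (v : V) (S : Finset V) (h : ∀ y, G.Adj v y → y ∈ S) : dg G v ≤ S.card := by
  unfold dg
  rw [← Set.ncard_coe_finset]
  exact Set.ncard_le_ncard (fun y hy => h y hy) (Set.toFinite _)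

/-- every connected set has at most `k + 1` neighbours -/
def LB (G : SimpleGraph V) (k : ℕ) : Prop :=
  ∀ (D N : Finset V) (b : V), b ∈ D → (∀ d ∈ D, Rin G D b d) → Disjoint D N →
    (∀ v ∈ N, ∃ e ∈ D, G.Adj v e) → N.card ≤ k + 1

lemma step1 {p : ℕ → V} {m : ℕ} (h : Mx G p m) {x : V} (hx : ∀ i < m, p i ≠ x) {j : ℕ} (hj : j < m)
    (hxj : G.Adj x (p j)) {k : ℕ} (hL : LB G k) (h0 : k ≤ dg G (p 0))
    (h2 : 2 ≤ dg G (p (m - 1))) : j + 2 = m := by
  classical
  by_contra hne
  have hj0 : j ≠ 0 := fun h' => h.f1 hx (h' ▸ hxj)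
  have hjm : j ≠ m - 1 := fun h' => h.f1' hx (h' ▸ hxj)
  set A := (range (m - 2)).filter (fun i => 1 ≤ i ∧ G.Adj (p 0) (p (i + 1))) with hA
  set B := (range (m - 2)).filter (fun i => ¬ (1 ≤ i ∧ G.Adj (p 0) (p (i + 1)))) with hB
  have mA : ∀ i, i ∈ A ↔ i < m - 2 ∧ 1 ≤ i ∧ G.Adj (p 0) (p (i + 1)) := by
    intro i; rw [hA, Finset.mem_filter, Finset.mem_range]
  have mB : ∀ i, i ∈ B ↔ i < m - 2 ∧ ¬ (1 ≤ i ∧ G.Adj (p 0) (p (i + 1))) := by
    intro i; rw [hB, Finset.mem_filter, Finset.mem_range]
  set D := B.image p with hD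
  have mD : ∀ i, i ∈ B → p i ∈ D := fun i hi => Finset.mem_image_of_mem p hi
  have h0B : 0 ∈ B := by
    rw [mB]
    exact ⟨by omega, fun h' => by omega⟩
  have hR : ∀ i, i ∈ B → Rin G D (p 0) (p i) := by
    intro i
    induction i using Nat.strong_induction_on with
    | _ i ih =>
      intro hi
      by_cases hi0 : i = 0
      · rw [hi0]
        exact ReflTransGen.refl
      · by_cases h3 : G.Adj (p 0) (p i)
        · exact ReflTransGen.single ⟨mD _ h0B, mD _ hi, h3⟩
        · have h4 : i - 1 ∈ B := by
            rw [mB] at hi ⊢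
            refine ⟨by omega, fun h5 => h3 ?_⟩
            have h6 : i - 1 + 1 = i := by omega
            rw [h6] at h5
            exact h5.2
          refine (ih (i - 1) (by omega) h4).tail ⟨mD _ h4, mD _ hi, ?_⟩
          have h7 := h.1.2 (i - 1) (by rw [mB] at hi; omega)
          have h6 : i - 1 + 1 = i := by omega
          rwa [h6] at h7
  have hpar : ∀ i, 1 ≤ i → i ≤ m - 2 → ∃ e ∈ D, G.Adj (p i) e := by
    intro i hi1 hi2
    by_cases h3 : G.Adj (p 0) (p i)
    · exact ⟨_, mD _ h0B, h3.symm⟩
    · have h4 : i - 1 ∈ B := by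
        rw [mB]
        refine ⟨by omega, fun h5 => h3 ?_⟩
        have h6 : i - 1 + 1 = i := by omega
        rw [h6] at h5
        exact h5.2
      refine ⟨_, mD _ h4, ?_⟩
      have h7 := h.1.2 (i - 1) (by omega)
      have h6 : i - 1 + 1 = i := by omega
      rw [h6] at h7
      exact h7.symm
  set S := insert (m - 2) (insert (m - 1) A) with hS
  have hScard : S.card = A.card + 2 := by
    rw [hS, Finset.card_insert_of_notMem, Finset.card_insert_of_notMem]
    · intro h'
      rw [mA] at h'
      omega
    · intro h'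
      rcases Finset.mem_insert.mp h' with h' | h'
      · omega
      · rw [mA] at h'
        omega
  have hSm : ∀ i ∈ S, i < m := by
    intro i hi
    rcases Finset.mem_insert.mp hi with h' | h'
    · omega
    · rcases Finset.mem_insert.mp h' with h' | h'
      · omega
      · rw [mA] at h'
        omega
  have hBS : ∀ i ∈ B, i ∉ S := by
    intro i hi hi2
    rw [mB] at hi
    rcases Finset.mem_insert.mp hi2 with h' | h'
    · omega
    · rcases Finset.mem_insert.mp h' with h' | h'
      · omega
      · rw [mA] at h'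
        exact hi.2 h'.2
  have hfin := hL D (insert x (S.image p)) (p 0) (mD _ h0B) (by
      intro d hd
      obtain ⟨i, hi, rfl⟩ := Finset.mem_image.mp hd
      exact hR i hi) (by
      rw [Finset.disjoint_left]
      intro d hd hd2
      obtain ⟨i, hi, rfl⟩ := Finset.mem_image.mp hd
      rcases Finset.mem_insert.mp hd2 with h' | h'
      · exact hx i (by rw [mB] at hi; omega) h'
      · obtain ⟨i', hi', h''⟩ := Finset.mem_image.mp h'
        have := h.1.1 _ _ (hSm i' hi') (by rw [mB] at hi; omega) h''
        rw [this] at hi'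
        exact hBS i hi hi') (by
      intro v hv
      rcases Finset.mem_insert.mp hv with rfl | hv
      · refine ⟨p j, mD _ ?_, hxj⟩
        rw [mB]
        exact ⟨by omega, fun h' => h.f3 hx (by omega) hxj h'.2⟩
      · obtain ⟨i, hi, rfl⟩ := Finset.mem_image.mp hv
        rcases Finset.mem_insert.mp hi with rfl | hi
        · exact hpar _ (by omega) (by omega)
        · rcases Finset.mem_insert.mp hi with rfl | hi
          · obtain ⟨y, hy, hy2⟩ := Set.exists_ne_of_one_lt_ncard
              (s := G.neighborSet (p (m - 1))) (by unfold dg at h2; omega) (p (m - 2))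
            have hyP : ∃ l < m, p l = y := by
              by_contra hcon
              push Not at hcon
              exact h.f1' (x := y) hcon (G.symm.symm _ _ hy)
            obtain ⟨l, hl, rfl⟩ := hyP
            have hy' : G.Adj (p (m - 1)) (p l) := hy
            have hl1 : l ≠ m - 2 := fun h' => hy2 (by rw [h'])
            have hl2 : l ≠ m - 1 := fun h' => G.loopless.irrefl _ (h' ▸ hy')
            have hl3 : l ≠ 0 := by
              rintro rfl
              exact h.f2' hx hj hxj hy'.symm
            refine ⟨p l, mD _ ?_, hy'⟩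
            rw [mB]
            exact ⟨by omega, fun h' => h.f2 hx hj hxj (by omega) h'.2 hy'⟩
          · rw [mA] at hi
            exact hpar _ (by omega) (by omega))
  have hxS : x ∉ S.image p := by
    intro h'
    obtain ⟨i, hi, h''⟩ := Finset.mem_image.mp h'
    exact hx i (hSm i hi) h''
  rw [Finset.card_insert_of_notMem hxS, Finset.card_image_of_injOn (by
    intro i hi i' hi' hii
    exact h.1.1 _ _ (hSm i hi) (hSm i' hi') hii), hScard] at hfin
  have hdeg : dg G (p 0) ≤ ((insert 0 A).image (fun i => p (i + 1))).card := by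
    refine dg_le _ _ fun y hy => ?_
    have hyP : ∃ l < m, p l = y := by
      by_contra hcon
      push Not at hcon
      exact h.f1 (x := y) hcon hy.symm
    obtain ⟨l, hl, rfl⟩ := hyP
    have hl0 : l ≠ 0 := fun h' => G.loopless.irrefl _ (h' ▸ hy)
    have hl1 : l ≠ m - 1 := by
      rintro rfl
      exact h.f2' hx hj hxj hy
    refine Finset.mem_image.mpr ⟨l - 1, ?_, by rw [show l - 1 + 1 = l by omega]⟩
    rw [Finset.mem_insert, mA, show l - 1 + 1 = l by omega]
    by_cases hl2 : l = 1
    · left; omega
    · right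
      exact ⟨by omega, by omega, hy⟩
  have h5 := Finset.card_image_le (s := insert 0 A) (f := fun i => p (i + 1))
  have h6 := Finset.card_insert_le 0 A
  omega

lemma step4 {p : ℕ → V} {m : ℕ} (h : Mx G p m) {x : V} (hx : ∀ i < m, p i ≠ x) {k : ℕ}
    (hL : LB G k) (hxk : k ≤ dg G x) (h0 : 2 ≤ dg G (p 0)) {j : ℕ} (hj : j < m)
    (hxj : G.Adj x (p j)) : j = 1 := by
  classical
  by_contra hne
  have hj0 : j ≠ 0 := fun h' => h.f1 hx (h' ▸ hxj)
  set J := (range m).filter (fun i => G.Adj x (p i)) with hJ
  have mJ : ∀ i, i ∈ J ↔ i < m ∧ G.Adj x (p i) := by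
    intro i; rw [hJ, Finset.mem_filter, Finset.mem_range]
  have hJne : J.Nonempty := ⟨j, (mJ j).mpr ⟨hj, hxj⟩⟩
  set l := J.max' hJne with hl
  have hlJ : l ∈ J := Finset.max'_mem _ _
  have hlmax : ∀ i ∈ J, i ≤ l := fun i hi => Finset.le_max' _ _ hi
  have hl2 : 2 ≤ l := by
    have := hlmax j ((mJ j).mpr ⟨hj, hxj⟩)
    omega
  have hlm : l + 2 ≤ m := by
    have h1 := (mJ l).mp hlJ
    have h2 : l ≠ m - 1 := fun h' => h.f1' hx (h' ▸ h1.2)
    omega
  have hJ0 : ∀ i ∈ J, 1 ≤ i := by
    intro i hi
    rw [mJ] at hi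
    have : i ≠ 0 := fun h' => h.f1 hx (h' ▸ hi.2)
    omega
  have hcons : ∀ i ∈ J, i + 1 ∉ J := by
    intro i hi hi2
    rw [mJ] at hi hi2
    exact h.f4 hx hi2.1 hi.2 hi2.2
  have hQ : ∀ i ∈ J.erase l, i + 2 ≤ l := by
    intro i hi
    obtain ⟨h1, h2⟩ := Finset.mem_erase.mp hi
    have h3 := hlmax i h2
    have h4 : i + 1 ≠ l := fun h' => hcons i h2 (h' ▸ hlJ)
    omega
  set A := (J.erase l).image (· + 1) with hA
  have mA : ∀ i, i ∈ A ↔ ∃ q ∈ J.erase l, q + 1 = i := by
    intro i; rw [hA, Finset.mem_image]
  have hAl : ∀ i ∈ A, 2 ≤ i ∧ i + 1 ≤ l := by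
    intro i hi
    obtain ⟨q, hq, rfl⟩ := (mA i).mp hi
    have h1 := hQ q hq
    have h2 := hJ0 q (Finset.mem_erase.mp hq).2
    omega
  have hAnot : ∀ i, i ∉ J → i + 1 ∉ A := by
    intro i hi hi2
    obtain ⟨q, hq, hq2⟩ := (mA _).mp hi2
    have : q = i := by omega
    rw [this] at hq
    exact hi (Finset.mem_erase.mp hq).2
  set B := (range (m - 1)).filter (fun i => 2 ≤ i ∧ i ∉ A) with hB
  have mB : ∀ i, i ∈ B ↔ i < m - 1 ∧ 2 ≤ i ∧ i ∉ A := by
    intro i; rw [hB, Finset.mem_filter, Finset.mem_range]
  set D := insert x (B.image p) with hD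
  have mD : ∀ i, i ∈ B → p i ∈ D := fun i hi => Finset.mem_insert_of_mem (Finset.mem_image_of_mem p hi)
  have hxD : x ∈ D := Finset.mem_insert_self _ _
  have hright : ∀ t i, i ∈ B → i ≤ l → l - i = t → Rin G D x (p i) := by
    intro t
    induction t with
    | zero =>
      intro i hi hi2 ht
      have : i = l := by omega
      rw [this] at hi ⊢
      exact ReflTransGen.single ⟨hxD, mD _ hi, ((mJ l).mp hlJ).2⟩
    | succ t ih =>
      intro i hi hi2 ht
      by_cases hiJ : i ∈ J
      · exact ReflTransGen.single ⟨hxD, mD _ hi, ((mJ i).mp hiJ).2⟩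
      · have hi' := (mB i).mp hi
        have h1 : i + 1 ∈ B := by
          rw [mB]
          exact ⟨by omega, by omega, hAnot i hiJ⟩
        exact (ih (i + 1) h1 (by omega) (by omega)).tail ⟨mD _ h1, mD _ hi,
          (h.1.2 i (by omega)).symm⟩
  have hleft : ∀ t i, i ∈ B → i = l + t → Rin G D x (p i) := by
    intro t
    induction t with
    | zero =>
      intro i hi hi2
      exact hright 0 i hi (by omega) (by omega)
    | succ t ih =>
      intro i hi hi2
      have hi' := (mB i).mp hi
      have h1 : l + t ∈ B := by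
        rw [mB]
        refine ⟨by omega, by omega, fun h' => ?_⟩
        have := hAl _ h'
        omega
      refine (ih (l + t) h1 rfl).tail ⟨mD _ h1, mD _ hi, ?_⟩
      rw [hi2]
      exact h.1.2 (l + t) (by omega)
  set NH := (univ : Finset V).filter (fun y => G.Adj x y ∧ ∀ i < m, p i ≠ y) with hNH
  have mNH : ∀ y, y ∈ NH ↔ G.Adj x y ∧ ∀ i < m, p i ≠ y := by
    intro y; rw [hNH, Finset.mem_filter]; simp
  set S := insert 0 (insert 1 (insert (m - 1) A)) with hS
  have mS : ∀ i, i ∈ S ↔ i = 0 ∨ i = 1 ∨ i = m - 1 ∨ i ∈ A := by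
    intro i; rw [hS, Finset.mem_insert, Finset.mem_insert, Finset.mem_insert]
  have hSm : ∀ i ∈ S, i < m := by
    intro i hi
    rcases (mS i).mp hi with h' | h' | h' | h'
    · omega
    · omega
    · omega
    · have := hAl i h'
      omega
  have hScard : S.card = A.card + 3 := by
    rw [hS, Finset.card_insert_of_notMem, Finset.card_insert_of_notMem,
      Finset.card_insert_of_notMem]
    · intro h'
      have := hAl _ h'
      omega
    · intro h'
      rcases Finset.mem_insert.mp h' with h' | h'
      · omega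
      · have := hAl _ h'
        omega
    · intro h'
      rcases Finset.mem_insert.mp h' with h' | h'
      · omega
      · rcases Finset.mem_insert.mp h' with h' | h'
        · omega
        · have := hAl _ h'
          omega
  have hfin := hL D (S.image p ∪ NH) x hxD (by
      intro d hd
      rcases Finset.mem_insert.mp hd with rfl | hd
      · exact ReflTransGen.refl
      · obtain ⟨i, hi, rfl⟩ := Finset.mem_image.mp hd
        by_cases hil : i ≤ l
        · exact hright _ i hi hil rfl
        · exact hleft (i - l) i hi (by omega)) (by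
      rw [Finset.disjoint_left]
      intro d hd hd2
      rcases Finset.mem_insert.mp hd with rfl | hd
      · rcases Finset.mem_union.mp hd2 with h' | h'
        · obtain ⟨i, hi, h''⟩ := Finset.mem_image.mp h'
          exact hx i (hSm i hi) h''
        · exact G.loopless.irrefl _ ((mNH _).mp h').1
      · obtain ⟨i, hi, rfl⟩ := Finset.mem_image.mp hd
        have hi' := (mB i).mp hi
        rcases Finset.mem_union.mp hd2 with h' | h'
        · obtain ⟨i', hi2, h''⟩ := Finset.mem_image.mp h'
          have := h.1.1 _ _ (hSm i' hi2) (by omega) h''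
          rw [this] at hi2
          rcases (mS i).mp hi2 with h' | h' | h' | h'
          · omega
          · omega
          · omega
          · exact hi'.2.2 h'
        · exact ((mNH _).mp h').2 i (by omega) rfl) (by
      intro v hv
      rcases Finset.mem_union.mp hv with hv | hv
      · obtain ⟨i, hi, rfl⟩ := Finset.mem_image.mp hv
        rcases (mS i).mp hi with rfl | rfl | rfl | h'
        · obtain ⟨y, hy, hy2⟩ := Set.exists_ne_of_one_lt_ncard
              (s := G.neighborSet (p 0)) (by unfold dg at h0; omega) (p 1)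
          have hyP : ∃ i < m, p i = y := by
            by_contra hcon
            push Not at hcon
            exact h.f1 (x := y) hcon (G.symm.symm _ _ hy)
          obtain ⟨i, hi, rfl⟩ := hyP
          have hy' : G.Adj (p 0) (p i) := hy
          have hi1 : i ≠ 1 := fun h' => hy2 (by rw [h'])
          have hi0 : i ≠ 0 := fun h' => G.loopless.irrefl _ (h' ▸ hy')
          have him : i ≠ m - 1 := by
            rintro rfl
            exact h.f2' hx hj hxj hy'
          refine ⟨p i, mD _ ?_, hy'⟩
          rw [mB]
          refine ⟨by omega, by omega, fun h' => ?_⟩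
          obtain ⟨q, hq, rfl⟩ := (mA _).mp h'
          exact h.f3 hx hi ((mJ q).mp (Finset.mem_erase.mp hq).2).2 hy'
        · by_cases h1 : 1 ∈ J
          · exact ⟨x, hxD, ((mJ 1).mp h1).2.symm⟩
          · refine ⟨p 2, mD _ ?_, h.1.2 1 (by omega)⟩
            rw [mB]
            exact ⟨by omega, by omega, hAnot 1 h1⟩
        · refine ⟨p (m - 2), mD _ ?_, ?_⟩
          · rw [mB]
            refine ⟨by omega, by omega, fun h' => ?_⟩
            have := hAl _ h'
            omega
          · have h7 := h.1.2 (m - 2) (by omega)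
            have h6 : m - 2 + 1 = m - 1 := by omega
            rw [h6] at h7
            exact h7.symm
        · obtain ⟨q, hq, rfl⟩ := (mA _).mp h'
          have h1 := hQ q hq
          refine ⟨p (q + 1 + 1), mD _ ?_, h.1.2 (q + 1) (by omega)⟩
          rw [mB]
          refine ⟨by omega, by omega, hAnot (q + 1) ?_⟩
          exact hcons q (Finset.mem_erase.mp hq).2
      · exact ⟨x, hxD, ((mNH v).mp hv).1.symm⟩)
  have hdis : Disjoint (S.image p) NH := by
    rw [Finset.disjoint_left]
    intro d hd hd2
    obtain ⟨i, hi, rfl⟩ := Finset.mem_image.mp hd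
    exact ((mNH _).mp hd2).2 i (hSm i hi) rfl
  rw [Finset.card_union_of_disjoint hdis, Finset.card_image_of_injOn (by
    intro i hi i' hi' hii
    exact h.1.1 _ _ (hSm i hi) (hSm i' hi') hii), hScard] at hfin
  have hAcard : A.card = J.card - 1 := by
    rw [hA, Finset.card_image_of_injective _ (add_left_injective 1), Finset.card_erase_of_mem hlJ]
  have hdeg : dg G x ≤ (J.image p ∪ NH).card := by
    refine dg_le _ _ fun y hy => ?_
    rw [Finset.mem_union]
    by_cases hyP : ∃ i < m, p i = y
    · left
      obtain ⟨i, hi, rfl⟩ := hyP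
      exact Finset.mem_image_of_mem p ((mJ i).mpr ⟨hi, hy⟩)
    · right
      push Not at hyP
      exact (mNH y).mpr ⟨hy, hyP⟩
  have h5 := Finset.card_image_le (s := J) (f := p)
  have h6 := Finset.card_union_le (J.image p) NH
  have h7 : 0 < J.card := Finset.card_pos.mpr hJne
  omega

/-- longest paths are Hamiltonian -/
theorem spanning {p : ℕ → V} {m : ℕ} (h : Mx G p m) (hm : 1 ≤ m) (hG : G.Connected) {k : ℕ}
    (hL : LB G k) (hk : ∀ u v, dg G u < k → dg G v < k → u = v) : ∀ v, ∃ i < m, p i = v := by
  classical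
  by_contra hcon
  push Not at hcon
  obtain ⟨w, hw⟩ := hcon
  -- an attached vertex
  obtain ⟨x, hx, j, hj, hxj⟩ : ∃ x, (∀ i < m, p i ≠ x) ∧ ∃ j < m, G.Adj x (p j) := by
    obtain ⟨q⟩ := hG.preconnected (p 0) w
    obtain ⟨d, -, hd1, hd2⟩ := q.exists_boundary_dart {v | ∃ i < m, p i = v}
      ⟨0, by omega, rfl⟩ (by
        rintro ⟨i, hi, h'⟩
        exact hw i hi h')
    obtain ⟨i, hi, hi2⟩ := hd1
    refine ⟨d.snd, fun i hi h' => hd2 ⟨i, hi, h'⟩, i, hi, ?_⟩
    rw [hi2]
    exact d.adj.symm
  have hj0 : j ≠ 0 := fun h' => h.f1 hx (h' ▸ hxj)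
  have hjm : j ≠ m - 1 := fun h' => h.f1' hx (h' ▸ hxj)
  -- `k ≥ 2`
  have hk2 : 2 ≤ k := by
    have hR : ∀ i, 1 ≤ i → i ≤ m - 2 →
        Rin G (((range (m - 1)).filter (1 ≤ ·)).image p) (p 1) (p i) := by
      intro i
      induction i with
      | zero => intro h1; omega
      | succ i ih =>
        intro _ hi2
        by_cases hi0 : i = 0
        · rw [hi0]
          exact ReflTransGen.refl
        · refine (ih (by omega) (by omega)).tail ⟨?_, ?_, h.1.2 i (by omega)⟩
          · refine Finset.mem_image_of_mem p ?_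
            rw [Finset.mem_filter, Finset.mem_range]
            omega
          · refine Finset.mem_image_of_mem p ?_
            rw [Finset.mem_filter, Finset.mem_range]
            omega
    have hmem : ∀ i, 1 ≤ i → i ≤ m - 2 → p i ∈ ((range (m - 1)).filter (1 ≤ ·)).image p := by
      intro i h1 h2
      refine Finset.mem_image_of_mem p ?_
      rw [Finset.mem_filter, Finset.mem_range]
      omega
    have hfin := hL (((range (m - 1)).filter (1 ≤ ·)).image p) {x, p 0, p (m - 1)} (p 1)
      (hmem 1 (by omega) (by omega)) (by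
        intro d hd
        obtain ⟨i, hi, rfl⟩ := Finset.mem_image.mp hd
        rw [Finset.mem_filter, Finset.mem_range] at hi
        exact hR i (by omega) (by omega)) (by
        rw [Finset.disjoint_left]
        intro d hd hd2
        obtain ⟨i, hi, rfl⟩ := Finset.mem_image.mp hd
        rw [Finset.mem_filter, Finset.mem_range] at hi
        rw [Finset.mem_insert, Finset.mem_insert, Finset.mem_singleton] at hd2
        rcases hd2 with h' | h' | h'
        · exact hx i (by omega) h'
        · have := h.1.1 _ _ (by omega) (by omega) h'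
          omega
        · have := h.1.1 _ _ (by omega) (by omega) h'
          omega) (by
        intro v hv
        rw [Finset.mem_insert, Finset.mem_insert, Finset.mem_singleton] at hv
        rcases hv with rfl | rfl | rfl
        · exact ⟨_, hmem j (by omega) (by omega), hxj⟩
        · exact ⟨_, hmem 1 (by omega) (by omega), h.1.2 0 (by omega)⟩
        · refine ⟨_, hmem (m - 2) (by omega) (by omega), ?_⟩
          have h7 := h.1.2 (m - 2) (by omega)
          have h6 : m - 2 + 1 = m - 1 := by omega
          rw [h6] at h7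
          exact h7.symm)
    have hcard : ({x, p 0, p (m - 1)} : Finset V).card = 3 := by
      rw [Finset.card_eq_three]
      refine ⟨x, p 0, p (m - 1), (hx 0 (by omega)).symm, (hx (m - 1) (by omega)).symm, ?_, rfl⟩
      intro h'
      have := h.1.1 _ _ (by omega) (by omega) h'
      omega
    omega
  by_cases hxk : k ≤ dg G x
  · -- the attached vertex has large degree
    have key : ∀ p : ℕ → V, Mx G p m → (∀ i < m, p i ≠ x) → (∃ j < m, G.Adj x (p j)) →
        k ≤ dg G (p 0) → False := by
      intro p h hx ⟨j, hj, hxj⟩ h0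
      have hj1 := step4 h hx hL hxk (by omega) hj hxj
      rw [hj1] at hj hxj
      have h' := h.f6 hx hxj
      obtain ⟨y, hy, hy2⟩ := Set.exists_ne_of_one_lt_ncard
              (s := G.neighborSet (p 0)) (by unfold dg at h0; omega) (p 1)
      have hyP : ∃ i < m, p i = y := by
        by_contra hcon
        push Not at hcon
        exact h.f1 (x := y) hcon (G.symm.symm _ _ hy)
      obtain ⟨i, hi, rfl⟩ := hyP
      have hy' : G.Adj (p 0) (p i) := hy
      have hi1 : i ≠ 1 := fun h' => hy2 (by rw [h'])
      have hi0 : i ≠ 0 := fun h' => G.loopless.irrefl _ (h' ▸ hy')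
      refine hi1 (step4 h' (x := p 0) (fun t ht => ?_) hL h0 ?_ hi ?_)
      · try dsimp only
        split_ifs with h3
        · exact (hx 0 (by omega)).symm
        · intro h4
          exact h3 (h.1.1 _ _ (by omega) (by omega) h4)
      · try dsimp only
        rw [if_pos rfl]
        omega
      · try dsimp only
        rw [if_neg hi0]
        exact hy'
    by_cases h0 : k ≤ dg G (p 0)
    · exact key p h hx ⟨j, hj, hxj⟩ h0
    · by_cases h1 : k ≤ dg G (p (m - 1))
      · refine key _ h.rev (fun i hi => hx _ (by omega)) ⟨m - 1 - j, by omega, ?_⟩ (by simpa using h1)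
        try dsimp only
        rw [show m - 1 - (m - 1 - j) = j by omega]
        exact hxj
      · have := hk _ _ (by omega : dg G (p 0) < k) (by omega : dg G (p (m - 1)) < k)
        have := h.1.1 _ _ (by omega) (by omega) this
        omega
  · have hbig : ∀ v, v ≠ x → k ≤ dg G v := by
      intro v hv
      by_contra hcon
      exact hv (hk _ _ (by omega) (by omega))
    have h0 := hbig (p 0) (hx 0 (by omega))
    have h1 := hbig (p (m - 1)) (hx _ (by omega))
    have e1 := step1 h hx hj hxj hL h0 (by omega)
    have e2 := step1 h.rev (x := x) (fun i hi => hx _ (by omega)) (j := m - 1 - j) (by omega) (by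
      try dsimp only
      rw [show m - 1 - (m - 1 - j) = j by omega]
      exact hxj) hL (by simpa using h1) (by
        try dsimp only
        rw [show m - 1 - (m - 1) = 0 by omega]
        omega)
    have hm3 : m = 3 := by omega
    subst hm3
    obtain ⟨y, hy, hy2⟩ := Set.exists_ne_of_one_lt_ncard
              (s := G.neighborSet (p 0)) (by unfold dg at h0; omega) (p 1)
    have hyP : ∃ i < 3, p i = y := by
      by_contra hcon
      push Not at hcon
      exact h.f1 (x := y) hcon (G.symm.symm _ _ hy)
    obtain ⟨i, hi, rfl⟩ := hyP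
    have hy' : G.Adj (p 0) (p i) := hy
    have hi1 : i ≠ 1 := fun h' => hy2 (by rw [h'])
    have hi0 : i ≠ 0 := fun h' => G.loopless.irrefl _ (h' ▸ hy')
    have hi2 : i = 3 - 1 := by omega
    rw [hi2] at hy'
    exact h.f2' hx hj hxj hy'

end Pool.Agent.X51.Leaf
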