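import Pool.Agent.X51.Leaf.Tree

/-!
Longest paths.
-/

set_option autoImplicit false

namespace Pool.Agent.X51.Leaf

open Finset Relation

variable {V : Type*} {G : SimpleGraph V}

/-- `p 0, …, p (m - 1)` is a path -/
def IsP (G : SimpleGraph V) (p : ℕ → V) (m : ℕ) : Prop :=
  (∀ i j, i < m → j < m → p i = p j → i = j) ∧ ∀ i, i + 1 < m → G.Adj (p i) (p (i + 1))

/-- a path with the largest possible number of vertices -/
def Mx (G : SimpleGraph V) (p : ℕ → V) (m : ℕ) : Prop :=
  IsP G p m ∧ ∀ q, ¬ IsP G q (m + 1)

lemma IsP.rev {p : ℕ → V} {m : ℕ} (h : IsP G p m) : IsP G (fun i => p (m - 1 - i)) m := by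
  refine ⟨fun i j hi hj hij => ?_, fun i hi => ?_⟩
  · have := h.1 _ _ (by omega) (by omega) hij
    omega
  · have h1 := h.2 (m - 1 - (i + 1)) (by omega)
    have h2 : m - 1 - (i + 1) + 1 = m - 1 - i := by omega
    rw [h2] at h1
    exact h1.symm

lemma Mx.rev {p : ℕ → V} {m : ℕ} (h : Mx G p m) : Mx G (fun i => p (m - 1 - i)) m :=
  ⟨h.1.rev, h.2⟩

lemma Mx.f1 {p : ℕ → V} {m : ℕ} (h : Mx G p m) {x : V} (hx : ∀ i < m, p i ≠ x) :
    ¬ G.Adj x (p 0) := by
  intro hadj
  apply h.2 (fun t => if t = 0 then x else p (t - 1))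
  refine ⟨fun i j hi hj hij => ?_, fun i hi => ?_⟩
  · dsimp only at hij
    split_ifs at hij with h1 h2 h2
    · omega
    · exact absurd hij.symm (hx _ (by omega))
    · exact absurd hij (hx _ (by omega))
    · have := h.1.1 _ _ (by omega) (by omega) hij
      omega
  · dsimp only
    rw [if_neg (by omega : ¬ i + 1 = 0)]
    split_ifs with h1
    · rw [h1]
      exact hadj
    · have h2 := h.1.2 (i - 1) (by omega)
      have h3 : i - 1 + 1 = i + 1 - 1 := by omega
      rw [h3] at h2
      exact h2

lemma Mx.f1' {p : ℕ → V} {m : ℕ} (h : Mx G p m) {x : V} (hx : ∀ i < m, p i ≠ x) :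
    ¬ G.Adj x (p (m - 1)) := by
  have := h.rev.f1 (x := x) (fun i hi => hx _ (by omega))
  simpa using this

lemma Mx.f3 {p : ℕ → V} {m : ℕ} (h : Mx G p m) {x : V} (hx : ∀ i < m, p i ≠ x) {i : ℕ}
    (hi : i + 1 < m) (h1 : G.Adj x (p i)) (h2 : G.Adj (p 0) (p (i + 1))) : False := by
  apply h.2 (fun t => if t = 0 then x else if t ≤ i + 1 then p (i + 1 - t) else p (t - 1))
  refine ⟨fun s t hs ht hst => ?_, fun t ht => ?_⟩
  · dsimp only at hst
    split_ifs at hst with h3 h4 h5 h4 h5 h6 h5 h6
    · omega
    · exact absurd hst.symm (hx _ (by omega))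
    · exact absurd hst.symm (hx _ (by omega))
    · exact absurd hst (hx _ (by omega))
    · have := h.1.1 _ _ (by omega) (by omega) hst
      omega
    · have := h.1.1 _ _ (by omega) (by omega) hst
      omega
    · exact absurd hst (hx _ (by omega))
    · have := h.1.1 _ _ (by omega) (by omega) hst
      omega
    · have := h.1.1 _ _ (by omega) (by omega) hst
      omega
  · dsimp only
    rw [if_neg (by omega : ¬ t + 1 = 0)]
    split_ifs with h3 h4 h4 h5 h5
    · rw [h3]
      exact h1
    · omega
    · have h6 := h.1.2 (i + 1 - (t + 1)) (by omega)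
      have h7 : i + 1 - (t + 1) + 1 = i + 1 - t := by omega
      rw [h7] at h6
      exact h6.symm
    · have h6 : t = i + 1 := by omega
      rw [h6]
      simpa using h2
    · omega
    · have h6 := h.1.2 (t - 1) (by omega)
      have h7 : t - 1 + 1 = t + 1 - 1 := by omega
      rw [h7] at h6
      exact h6

lemma Mx.f4 {p : ℕ → V} {m : ℕ} (h : Mx G p m) {x : V} (hx : ∀ i < m, p i ≠ x) {i : ℕ}
    (hi : i + 1 < m) (h1 : G.Adj x (p i)) (h2 : G.Adj x (p (i + 1))) : False := by
  apply h.2 (fun t => if t ≤ i then p t else if t = i + 1 then x else p (t - 1))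
  refine ⟨fun s t hs ht hst => ?_, fun t ht => ?_⟩
  · dsimp only at hst
    split_ifs at hst with h3 h4 h5 h4 h5 h6 h5 h6
    · exact h.1.1 _ _ (by omega) (by omega) hst
    · exact absurd hst (hx _ (by omega))
    · have := h.1.1 _ _ (by omega) (by omega) hst
      omega
    · exact absurd hst.symm (hx _ (by omega))
    · omega
    · exact absurd hst.symm (hx _ (by omega))
    · have := h.1.1 _ _ (by omega) (by omega) hst
      omega
    · exact absurd hst (hx _ (by omega))
    · have := h.1.1 _ _ (by omega) (by omega) hst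
      omega
  · dsimp only
    split_ifs with h3 h4 h4 h5 h5 h6 h6 h6
    all_goals first | omega | skip
    · exact h.1.2 t (by omega)
    · have : t = i := by omega
      rw [this]
      exact h1.symm
    · have : t + 1 - 1 = i + 1 := by omega
      rw [this]
      exact h2
    · have h6 := h.1.2 (t - 1) (by omega)
      have h7 : t - 1 + 1 = t + 1 - 1 := by omega
      rw [h7] at h6
      exact h6

/-- no cycle through all the vertices of the path -/
lemma Mx.cyc {p c : ℕ → V} {m : ℕ} (h : Mx G p m) (hc : IsP G c m)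
    (hcl : G.Adj (c (m - 1)) (c 0)) {x : V} (hx : ∀ i < m, c i ≠ x) {j : ℕ} (hj : j < m)
    (hxj : G.Adj x (c j)) : False := by
  apply h.2 (fun t => if t = 0 then x else if j + t - 1 < m then c (j + t - 1)
    else c (j + t - 1 - m))
  refine ⟨fun s t hs ht hst => ?_, fun t ht => ?_⟩
  · dsimp only at hst
    split_ifs at hst with h3 h4 h5 h4 h5 h6 h5 h6
    · omega
    · exact absurd hst.symm (hx _ (by omega))
    · exact absurd hst.symm (hx _ (by omega))
    · exact absurd hst (hx _ (by omega))
    · have := hc.1 _ _ (by omega) (by omega) hst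
      omega
    · have := hc.1 _ _ (by omega) (by omega) hst
      omega
    · exact absurd hst (hx _ (by omega))
    · have := hc.1 _ _ (by omega) (by omega) hst
      omega
    · have := hc.1 _ _ (by omega) (by omega) hst
      omega
  · dsimp only
    rw [if_neg (by omega : ¬ t + 1 = 0)]
    by_cases h3 : t = 0
    · rw [if_pos h3, if_pos (by omega)]
      have : j + (t + 1) - 1 = j := by omega
      rw [this]
      exact hxj
    · rw [if_neg h3]
      by_cases h4 : j + (t + 1) - 1 < m
      · rw [if_pos h4, if_pos (by omega)]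
        have h6 := hc.2 (j + t - 1) (by omega)
        have h7 : j + t - 1 + 1 = j + (t + 1) - 1 := by omega
        rw [h7] at h6
        exact h6
      · rw [if_neg h4]
        by_cases h5 : j + t - 1 < m
        · rw [if_pos h5]
          have h6 : j + t - 1 = m - 1 := by omega
          have h7 : j + (t + 1) - 1 - m = 0 := by omega
          rw [h6, h7]
          exact hcl
        · rw [if_neg h5]
          have h6 := hc.2 (j + t - 1 - m) (by omega)
          have h7 : j + t - 1 - m + 1 = j + (t + 1) - 1 - m := by omega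
          rw [h7] at h6
          exact h6

lemma Mx.f2' {p : ℕ → V} {m : ℕ} (h : Mx G p m) {x : V} (hx : ∀ i < m, p i ≠ x) {j : ℕ}
    (hj : j < m) (hxj : G.Adj x (p j)) : ¬ G.Adj (p 0) (p (m - 1)) :=
  fun h1 => h.cyc h.1 h1.symm hx hj hxj

lemma Mx.f2 {p : ℕ → V} {m : ℕ} (h : Mx G p m) {x : V} (hx : ∀ i < m, p i ≠ x) {j : ℕ}
    (hj : j < m) (hxj : G.Adj x (p j)) {i : ℕ} (hi : i + 1 < m) (h1 : G.Adj (p 0) (p (i + 1)))
    (h2 : G.Adj (p (m - 1)) (p i)) : False := by
  let c : ℕ → V := fun t => if t ≤ i then p t else p (m + i - t)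
  have hc : IsP G c m := by
    refine ⟨fun s t hs ht hst => ?_, fun t ht => ?_⟩
    · dsimp only [c] at hst
      split_ifs at hst with h3 h4 h4
      · exact h.1.1 _ _ (by omega) (by omega) hst
      · have := h.1.1 _ _ (by omega) (by omega) hst
        omega
      · have := h.1.1 _ _ (by omega) (by omega) hst
        omega
      · have := h.1.1 _ _ (by omega) (by omega) hst
        omega
    · dsimp only [c]
      split_ifs with h3 h4 h4
      · exact h.1.2 t (by omega)
      · have h5 : t = i := by omega
        have h6 : m + i - (t + 1) = m - 1 := by omega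
        rw [h6, h5]
        exact h2.symm
      · omega
      · have h6 := h.1.2 (m + i - (t + 1)) (by omega)
        have h7 : m + i - (t + 1) + 1 = m + i - t := by omega
        rw [h7] at h6
        exact h6.symm
  have hcl : G.Adj (c (m - 1)) (c 0) := by
    dsimp only [c]
    rw [if_neg (by omega), if_pos (by omega)]
    have h6 : m + i - (m - 1) = i + 1 := by omega
    rw [h6]
    exact h1.symm
  have hcx : ∀ t < m, c t ≠ x := by
    intro t ht
    dsimp only [c]
    split_ifs with h3
    · exact hx _ (by omega)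
    · exact hx _ (by omega)
  by_cases hji : j ≤ i
  · refine h.cyc hc hcl hcx hj ?_
    dsimp only [c]
    rw [if_pos hji]
    exact hxj
  · refine h.cyc hc hcl hcx (j := m + i - j) (by omega) ?_
    dsimp only [c]
    rw [if_neg (by omega)]
    have h6 : m + i - (m + i - j) = j := by omega
    rw [h6]
    exact hxj

/-- replacing the first vertex -/
lemma Mx.f6 {p : ℕ → V} {m : ℕ} (h : Mx G p m) {x : V} (hx : ∀ i < m, p i ≠ x)
    (h1 : G.Adj x (p 1)) : Mx G (fun t => if t = 0 then x else p t) m := by
  refine ⟨⟨fun s t hs ht hst => ?_, fun t ht => ?_⟩, h.2⟩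
  · dsimp only at hst
    split_ifs at hst with h3 h4 h4
    · omega
    · exact absurd hst.symm (hx _ (by omega))
    · exact absurd hst (hx _ (by omega))
    · exact h.1.1 _ _ hs ht hst
  · dsimp only
    rw [if_neg (by omega : ¬ t + 1 = 0)]
    split_ifs with h3
    · rw [h3]
      exact h1
    · exact h.1.2 t ht

end Pool.Agent.X51.Leaf
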