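import Mathlib

/-!
Spanning trees with many leaves from connected sets with many outside neighbours.
-/

set_option autoImplicit false

namespace Pool.Agent.X51.Leaf

open Finset Relation

variable {V : Type*} [Fintype V] {G : SimpleGraph V}

/-- reachable inside `D` -/
def Rin (G : SimpleGraph V) (D : Finset V) (b d : V) : Prop :=
  ReflTransGen (fun x y => x ∈ D ∧ y ∈ D ∧ G.Adj x y) b d

/-- the set of leaves of a graph -/
def lv (T : SimpleGraph V) : Set V := {v | (T.neighborSet v).ncard = 1}

omit [Fintype V] in
lemma Rin.mono {D D' : Finset V} (h : D ⊆ D') {b d : V} (hr : Rin G D b d) : Rin G D' b d := by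
  unfold Rin at *
  induction hr with
  | refl => exact ReflTransGen.refl
  | tail _ h1 ih => exact ih.tail ⟨h h1.1, h h1.2.1, h1.2.2⟩

/-- the dominating case -/
lemma tree_of_dom (hG : G.Connected) (D : Finset V) (b : V) (hb : b ∈ D)
    (hD : ∀ d ∈ D, Rin G D b d) (hdom : ∀ v, v ∉ D → ∃ e ∈ D, G.Adj v e) :
    ∃ T ≤ G, T.IsTree ∧ {v | v ∉ D} ⊆ lv T := by
  classical
  choose! f hf1 hf2 using hdom
  let G' : SimpleGraph V :=
    { Adj := fun x y => G.Adj x y ∧ ((x ∈ D ∧ y ∈ D) ∨ (x ∉ D ∧ y = f x) ∨ (y ∉ D ∧ x = f y))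
      symm := ⟨by
        rintro x y ⟨h1, h2⟩
        refine ⟨h1.symm, ?_⟩
        tauto⟩
      loopless := ⟨fun x h => G.loopless.irrefl x h.1⟩ }
  have hG' : G' ≤ G := fun x y h => h.1
  have hreach : ∀ v, G'.Reachable b v := by
    have h1 : ∀ d ∈ D, G'.Reachable b d := by
      intro d hd
      have := hD d hd
      unfold Rin at this
      induction this with
      | refl => exact SimpleGraph.Reachable.refl _
      | tail h1 h2 ih =>
        exact (ih h2.1).trans (SimpleGraph.Adj.reachable
          (show G'.Adj _ _ from ⟨h2.2.2, Or.inl ⟨h2.1, h2.2.1⟩⟩))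
    intro v
    by_cases hv : v ∈ D
    · exact h1 v hv
    · exact (h1 _ (hf1 v hv)).trans (SimpleGraph.Adj.reachable
          (show G'.Adj _ _ from ⟨(hf2 v hv).symm, Or.inr (Or.inr ⟨hv, rfl⟩)⟩))
  have hne : Nonempty V := ⟨b⟩
  have hconn : G'.Connected := by
    rw [SimpleGraph.connected_iff]
    exact ⟨fun x y => (hreach x).symm.trans (hreach y), hne⟩
  obtain ⟨T, hT1, hT2⟩ := hconn.exists_isTree_le
  refine ⟨T, hT1.trans hG', hT2, ?_⟩
  intro v hv
  have hsub : T.neighborSet v ⊆ {f v} := by
    intro w hw
    obtain ⟨h1, h2⟩ := hT1 hw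
    rcases h2 with h2 | h2 | h2
    · exact absurd h2.1 hv
    · exact h2.2
    · exfalso
      apply hv
      have := hf1 w h2.1
      rwa [← h2.2] at this
  have hnon : (T.neighborSet v).Nonempty := by
    have hvb : v ≠ b := fun h => hv (h ▸ hb)
    obtain ⟨p⟩ := hT2.1 v b
    cases p with
    | nil => exact absurd rfl hvb
    | cons h _ => exact ⟨_, h⟩
  have heq : T.neighborSet v = {f v} := Set.Subset.antisymm hsub (by
    obtain ⟨w, hw⟩ := hnon
    have := hsub hw
    rw [Set.mem_singleton_iff] at this
    rw [← this]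
    exact Set.singleton_subset_iff.mpr hw)
  change (T.neighborSet v).ncard = 1
  rw [heq, Set.ncard_singleton]

/-- growing -/
lemma grow (hG : G.Connected) (b : V) : ∀ (t : ℕ) (D N : Finset V), Fintype.card V - D.card = t →
    b ∈ D → (∀ d ∈ D, Rin G D b d) → Disjoint D N → (∀ v ∈ N, ∃ e ∈ D, G.Adj v e) →
    ∃ T ≤ G, T.IsTree ∧ N.card ≤ (lv T).ncard := by
  classical
  intro t
  induction t using Nat.strong_induction_on with
  | _ t ih =>
    intro D N ht hb hD hDN hN
    by_cases hdom : ∀ v, v ∉ D → ∃ e ∈ D, G.Adj v e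
    · obtain ⟨T, h1, h2, h3⟩ := tree_of_dom hG D b hb hD hdom
      refine ⟨T, h1, h2, ?_⟩
      rw [← Set.ncard_coe_finset]
      refine Set.ncard_le_ncard ?_ (Set.toFinite _)
      intro v hv
      exact h3 (Finset.disjoint_right.mp hDN (by exact_mod_cast hv))
    · push Not at hdom
      obtain ⟨w, hw1, hw2⟩ := hdom
      let S : Set V := {v | v ∈ D ∨ ∃ e ∈ D, G.Adj v e}
      obtain ⟨p⟩ := hG.preconnected b w
      obtain ⟨d, -, hd1, hd2⟩ := p.exists_boundary_dart S (Or.inl hb) (by
        rintro (h | ⟨e, he, h⟩)
        · exact hw1 h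
        · exact hw2 e he h)
      have hadj := d.adj
      set u := d.fst
      set w' := d.snd
      have hw'D : w' ∉ D := fun h => hd2 (Or.inl h)
      have hw'2 : ∀ e ∈ D, ¬ G.Adj w' e := fun e he h => hd2 (Or.inr ⟨e, he, h⟩)
      have huD : u ∉ D := fun h => hw'2 u h hadj.symm
      obtain ⟨e, he, hue⟩ : ∃ e ∈ D, G.Adj u e := by
        rcases hd1 with h | h
        · exact absurd h huD
        · exact h
      have hcard : (insert u D).card = D.card + 1 := Finset.card_insert_of_notMem huD
      have hle : (insert u D).card ≤ Fintype.card V := Finset.card_le_univ _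
      obtain ⟨T, h1, h2, h3⟩ := ih (Fintype.card V - (insert u D).card) (by omega) (insert u D)
        (insert w' (N.erase u)) rfl (Finset.mem_insert_of_mem hb) (by
          intro x hx
          rcases Finset.mem_insert.mp hx with rfl | hx
          · refine ReflTransGen.tail ((hD e he).mono (Finset.subset_insert _ _)) ?_
            exact ⟨Finset.mem_insert_of_mem he, Finset.mem_insert_self _ _, hue.symm⟩
          · exact (hD x hx).mono (Finset.subset_insert _ _)) (by
          rw [Finset.disjoint_left]
          intro x hx hx2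
          rcases Finset.mem_insert.mp hx2 with h | h
          · rw [h] at hx
            rcases Finset.mem_insert.mp hx with h' | h'
            · rw [h'] at hadj
              exact G.loopless.irrefl _ hadj
            · exact hw'D h'
          · obtain ⟨h3, h4⟩ := Finset.mem_erase.mp h
            rcases Finset.mem_insert.mp hx with h' | h'
            · exact h3 h'
            · exact Finset.disjoint_left.mp hDN h' h4) (by
          intro v hv
          rcases Finset.mem_insert.mp hv with rfl | hv
          · exact ⟨u, Finset.mem_insert_self _ _, hadj.symm⟩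
          · obtain ⟨e', he', h'⟩ := hN v (Finset.mem_erase.mp hv).2
            exact ⟨e', Finset.mem_insert_of_mem he', h'⟩)
      refine ⟨T, h1, h2, le_trans ?_ h3⟩
      have hw'N : w' ∉ N.erase u := by
        intro h
        obtain ⟨e', he', h'⟩ := hN w' (Finset.mem_erase.mp h).2
        exact hw'2 e' he' h'
      rw [Finset.card_insert_of_notMem hw'N]
      have := Finset.pred_card_le_card_erase (a := u) (s := N)
      omega

end Pool.Agent.X51.Leaf
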